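import Pool.Agent.H31.PC.Targets
import Pool.Agent.H30.Vino.Divisor

/-!
`pc_modules` [DB]: the divisor bound.
-/

namespace Pool.Agent.H3.PC.DB

open Finset Pool.Agent.H31.PC

theorem pf_DB : T_DB := by
  intro ε hε
  obtain ⟨k0, hk0⟩ := exists_nat_ge ((1 : ℝ) / ε)
  set k := k0 + 1 with hk
  have hkpos : 0 < k := Nat.succ_pos _
  obtain ⟨C₀, hC₀, hdiv⟩ := Pool.Agent.H30.Vino.card_divisors_pow_le k
  have hC₀1 : (1 : ℝ) ≤ C₀ := by exact_mod_cast hC₀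
  refine ⟨(C₀ : ℝ) ^ ((k : ℝ)⁻¹), Real.one_le_rpow hC₀1 (by positivity), ?_⟩
  intro n hn
  have hn1 : (1 : ℝ) ≤ n := by exact_mod_cast hn
  have h1 : ((#n.divisors : ℝ)) ^ k ≤ C₀ * (n : ℝ) := by
    exact_mod_cast hdiv n hn
  have h3 : ((#n.divisors : ℝ) ^ k) ^ ((k : ℝ)⁻¹) ≤ ((C₀ : ℝ) * (n : ℝ)) ^ ((k : ℝ)⁻¹) :=
    Real.rpow_le_rpow (by positivity) h1 (by positivity)
  rw [Real.pow_rpow_inv_natCast (by positivity) hkpos.ne',
    Real.mul_rpow (by positivity) (by positivity)] at h3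
  refine h3.trans ?_
  apply mul_le_mul_of_nonneg_left _ (by positivity)
  apply Real.rpow_le_rpow_of_exponent_le hn1
  have hkR : (0 : ℝ) < k := by exact_mod_cast hkpos
  rw [inv_eq_one_div, div_le_iff₀ hkR]
  have h4 : (1 : ℝ) ≤ k0 * ε := (div_le_iff₀ hε).1 hk0
  have h5 : (k : ℝ) = k0 + 1 := by rw [hk]; push_cast; ring
  rw [h5]
  nlinarith

end Pool.Agent.H3.PC.DB
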