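import Pool.Agent.H31.PC.Targets

/-!
`pc_modules` [GS]: Pillai's function is at most `s` times the number of divisors.
-/

namespace Pool.Agent.H3.PC.GS

open Finset Pool.Agent.H31.PC

theorem pf_GS : T_GS := by
  intro s hs
  have hs0 : s ≠ 0 := by omega
  have hmaps : ∀ k ∈ Finset.Icc 1 s, Nat.gcd k s ∈ s.divisors := by
    intro k _
    exact Nat.mem_divisors.2 ⟨Nat.gcd_dvd_right k s, hs0⟩
  rw [← Finset.sum_fiberwise_of_maps_to hmaps (fun k => Nat.gcd k s)]
  have h1 : ∀ g ∈ s.divisors,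
      ∑ k ∈ (Finset.Icc 1 s).filter (fun k => Nat.gcd k s = g), Nat.gcd k s ≤ s := by
    intro g hg
    have hgs : g ∣ s := (Nat.mem_divisors.1 hg).1
    have h2 : ∑ k ∈ (Finset.Icc 1 s).filter (fun k => Nat.gcd k s = g), Nat.gcd k s =
        #((Finset.Icc 1 s).filter (fun k => Nat.gcd k s = g)) * g := by
      rw [Finset.sum_congr rfl (fun k hk => (Finset.mem_filter.1 hk).2), Finset.sum_const,
        smul_eq_mul]
    rw [h2]
    have h3 : #((Finset.Icc 1 s).filter (fun k => Nat.gcd k s = g)) ≤ s / g := by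
      have h4 : (Finset.Icc 1 s).filter (fun k => Nat.gcd k s = g) ⊆
          (Finset.Ioc 0 s).filter (fun k => g ∣ k) := by
        intro k hk
        rw [Finset.mem_filter] at hk ⊢
        obtain ⟨hk1, hk2⟩ := hk
        rw [Finset.mem_Icc] at hk1
        refine ⟨Finset.mem_Ioc.2 ⟨by omega, hk1.2⟩, ?_⟩
        rw [← hk2]
        exact Nat.gcd_dvd_left k s
      refine (Finset.card_le_card h4).trans (le_of_eq ?_)
      exact Nat.Ioc_filter_dvd_card_eq_div s g
    calc #((Finset.Icc 1 s).filter (fun k => Nat.gcd k s = g)) * g ≤ s / g * g :=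
          Nat.mul_le_mul_right _ h3
      _ ≤ s := Nat.div_mul_le_self s g
  calc ∑ g ∈ s.divisors, ∑ k ∈ (Finset.Icc 1 s).filter (fun k => Nat.gcd k s = g), Nat.gcd k s
      ≤ ∑ _g ∈ s.divisors, s := Finset.sum_le_sum h1
    _ = s * #s.divisors := by rw [Finset.sum_const, smul_eq_mul, Nat.mul_comm]

end Pool.Agent.H3.PC.GS
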